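import Pool.Agent.H59.LIN.Targets

set_option autoImplicit false

open Pool.Agent.H59.LIN

namespace Pool.Agent.H40.LIN

section

variable {K : Type} [CommRing K]

theorem gp_apply (m l : ℕ) (h : l < m + 2) (x : MM K (m + 1)) :
    gp K m l x = (x : Fin (m + 2) → MM K m) ⟨l, h⟩ := by
  have h1 : gp K m l = LinearMap.proj (φ := fun _ : Fin (m + 2) => MM K m) ⟨l, h⟩ := dif_pos h
  rw [h1]
  rfl

theorem mm_ext (m : ℕ) (x y : MM K (m + 1)) (h : ∀ l < m + 2, gp K m l x = gp K m l y) :
    x = y := by
  refine funext fun l : Fin (m + 2) => ?_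
  have h1 := h l l.2
  rw [gp_apply m l l.2, gp_apply m l l.2] at h1
  exact h1

theorem gp_pim (m l : ℕ) (h : l < m + 2) (F : ℕ → MM K (m + 1) →ₗ[K] MM K m)
    (x : MM K (m + 1)) : gp K m l (pim K m F x) = F l x := by
  rw [gp_apply m l h]
  rfl

variable (s κ : K)

theorem g_lt (m i l : ℕ) (h : l < m + 2) (hi : l < i) (x : MM K (m + 1)) :
    gp K m l (RR s κ (m + 1) i x) = RR s κ m (i - 1) (gp K m l x) := by
  have h1 : RR s κ (m + 1) i = pim K m fun l =>
      if l < i then RR s κ m (i - 1) ∘ₗ gp K m l
      else if l = i then gp K m (i + 1) + s • gp K m i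
      else if l = i + 1 then κ • gp K m i
      else RR s κ m i ∘ₗ gp K m l := rfl
  rw [h1, gp_pim m l h, if_pos hi]
  rfl

theorem g_eq (m i : ℕ) (h : i < m + 2) (x : MM K (m + 1)) :
    gp K m i (RR s κ (m + 1) i x) = gp K m (i + 1) x + s • gp K m i x := by
  have h1 : RR s κ (m + 1) i = pim K m fun l =>
      if l < i then RR s κ m (i - 1) ∘ₗ gp K m l
      else if l = i then gp K m (i + 1) + s • gp K m i
      else if l = i + 1 then κ • gp K m i
      else RR s κ m i ∘ₗ gp K m l := rfl
  rw [h1, gp_pim m i h, if_neg (lt_irrefl i), if_pos rfl]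
  rfl

theorem g_su (m i : ℕ) (h : i + 1 < m + 2) (x : MM K (m + 1)) :
    gp K m (i + 1) (RR s κ (m + 1) i x) = κ • gp K m i x := by
  have h1 : RR s κ (m + 1) i = pim K m fun l =>
      if l < i then RR s κ m (i - 1) ∘ₗ gp K m l
      else if l = i then gp K m (i + 1) + s • gp K m i
      else if l = i + 1 then κ • gp K m i
      else RR s κ m i ∘ₗ gp K m l := rfl
  rw [h1, gp_pim m (i + 1) h, if_neg (by omega), if_neg (by omega), if_pos rfl]
  rfl

theorem g_gt (m i l : ℕ) (h : l < m + 2) (hi : i + 1 < l) (x : MM K (m + 1)) :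
    gp K m l (RR s κ (m + 1) i x) = RR s κ m i (gp K m l x) := by
  have h1 : RR s κ (m + 1) i = pim K m fun l =>
      if l < i then RR s κ m (i - 1) ∘ₗ gp K m l
      else if l = i then gp K m (i + 1) + s • gp K m i
      else if l = i + 1 then κ • gp K m i
      else RR s κ m i ∘ₗ gp K m l := rfl
  rw [h1, gp_pim m l h, if_neg (by omega), if_neg (by omega), if_neg (by omega)]
  rfl

theorem quad : ∀ (m i : ℕ), i < m → ∀ x : MM K m,
    RR s κ m i (RR s κ m i x) = κ • x + s • RR s κ m i x
  | 0, i, hi, x => absurd hi (Nat.not_lt_zero i)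
  | m + 1, i, hi, x => by
    refine mm_ext m _ _ fun l hl => ?_
    rw [map_add, map_smul, map_smul]
    rcases lt_trichotomy l i with h | h | h
    · rw [g_lt s κ m i l hl h, g_lt s κ m i l hl h]
      exact quad m (i - 1) (by omega) _
    · subst h
      rw [g_eq s κ m l hl, g_su s κ m l (by omega), g_eq s κ m l hl]
    · rcases Nat.lt_or_ge (i + 1) l with h2 | h2
      · rw [g_gt s κ m i l hl h2, g_gt s κ m i l hl h2]
        exact quad m i (by omega) _
      · obtain rfl : l = i + 1 := by omega
        rw [g_su s κ m i hl, g_eq s κ m i (by omega), g_su s κ m i hl, smul_add, smul_comm κ s]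

theorem brd : ∀ (m i : ℕ), i + 1 < m → ∀ x : MM K m,
    RR s κ m i (RR s κ m (i + 1) (RR s κ m i x)) =
      RR s κ m (i + 1) (RR s κ m i (RR s κ m (i + 1) x))
  | 0, i, hi, x => absurd hi (Nat.not_lt_zero _)
  | m + 1, i, hi, x => by
    refine mm_ext m _ _ fun l hl => ?_
    rcases lt_trichotomy l i with h | h | h
    · rw [g_lt s κ m i l hl h, g_lt s κ m (i + 1) l hl (by omega), g_lt s κ m i l hl h,
        g_lt s κ m (i + 1) l hl (by omega), g_lt s κ m i l hl h,
        g_lt s κ m (i + 1) l hl (by omega)]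
      have h1 := brd m (i - 1) (by omega) (gp K m l x)
      have h2 : i - 1 + 1 = i + 1 - 1 := by omega
      rw [h2] at h1
      exact h1
    · subst h
      rw [g_eq s κ m l hl, g_eq s κ m (l + 1) (by omega), g_lt s κ m (l + 1) l hl (by omega),
        g_su s κ m l (by omega), g_eq s κ m l hl, g_gt s κ m l (l + 1 + 1) (by omega) (by omega),
        g_lt s κ m (l + 1) l hl (by omega), g_eq s κ m l hl, g_eq s κ m (l + 1) (by omega),
        g_lt s κ m (l + 1) l hl (by omega)]
      have h1 : l + 1 - 1 = l := rfl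
      rw [h1, map_add, map_smul, map_add, map_add, map_smul, map_smul, quad s κ m l (by omega)]
      simp only [smul_add]
      abel
    · rcases Nat.lt_or_ge (i + 1) l with h2 | h2
      · rcases Nat.lt_or_ge (i + 2) l with h3 | h3
        · rw [g_gt s κ m i l hl h2, g_gt s κ m (i + 1) l hl h3, g_gt s κ m i l hl h2,
            g_gt s κ m (i + 1) l hl h3, g_gt s κ m i l hl h2, g_gt s κ m (i + 1) l hl h3]
          exact brd m i (by omega) _
        · obtain rfl : l = i + 1 + 1 := by omega
          rw [g_gt s κ m i _ hl h2, g_su s κ m (i + 1) hl, g_su s κ m i (by omega),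
            g_su s κ m (i + 1) hl, g_su s κ m i (by omega), g_lt s κ m (i + 1) i (by omega)
            (by omega), map_smul, map_smul]
          rfl
      · obtain rfl : l = i + 1 := by omega
        rw [g_su s κ m i hl, g_lt s κ m (i + 1) i (by omega) (by omega), g_eq s κ m i (by omega),
          g_eq s κ m (i + 1) hl, g_gt s κ m i (i + 1 + 1) (by omega) (by omega),
          g_su s κ m (i + 1) (by omega), g_su s κ m i hl,
          g_lt s κ m (i + 1) i (by omega) (by omega)]
        have h1 : i + 1 - 1 = i := rfl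
        rw [h1, map_add, map_smul, map_smul, smul_add, smul_comm κ s]

theorem far : ∀ (m i j : ℕ), i + 1 < j → j < m → ∀ x : MM K m,
    RR s κ m i (RR s κ m j x) = RR s κ m j (RR s κ m i x)
  | 0, i, j, _, hj, x => absurd hj (Nat.not_lt_zero _)
  | m + 1, i, j, hij, hj, x => by
    refine mm_ext m _ _ fun l hl => ?_
    rcases lt_trichotomy l i with h | h | h
    · rw [g_lt s κ m i l hl h, g_lt s κ m j l hl (by omega), g_lt s κ m j l hl (by omega),
        g_lt s κ m i l hl h]
      exact far m (i - 1) (j - 1) (by omega) (by omega) _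
    · subst h
      rw [g_eq s κ m l hl, g_lt s κ m j l hl (by omega), g_lt s κ m j (l + 1) (by omega) hij,
        g_lt s κ m j l hl (by omega), g_eq s κ m l hl, map_add, map_smul]
    · rcases Nat.lt_or_ge (i + 1) l with h2 | h2
      · rcases lt_trichotomy l j with h3 | h3 | h3
        · rw [g_gt s κ m i l hl h2, g_lt s κ m j l hl h3, g_lt s κ m j l hl h3,
            g_gt s κ m i l hl h2]
          exact far m i (j - 1) (by omega) (by omega) _
        · subst h3
          rw [g_gt s κ m i l hl h2, g_eq s κ m l hl, g_eq s κ m l hl,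
            g_gt s κ m i (l + 1) (by omega) (by omega), g_gt s κ m i l hl h2, map_add, map_smul]
        · rcases Nat.lt_or_ge (j + 1) l with h4 | h4
          · rw [g_gt s κ m i l hl h2, g_gt s κ m j l hl h4, g_gt s κ m j l hl h4,
              g_gt s κ m i l hl h2]
            exact far m i j hij (by omega) _
          · obtain rfl : l = j + 1 := by omega
            rw [g_gt s κ m i _ hl h2, g_su s κ m j hl, g_su s κ m j hl,
              g_gt s κ m i j (by omega) hij, map_smul]
      · obtain rfl : l = i + 1 := by omega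
        rw [g_su s κ m i hl, g_lt s κ m j i (by omega) (by omega), g_lt s κ m j (i + 1) hl hij,
          g_su s κ m i hl, map_smul]

end

theorem pf_HR : Pool.Agent.H59.LIN.T_HR := by
  intro K _ s κ m
  exact ⟨fun i hi x => quad s κ m i hi x, fun i hi x => brd s κ m i hi x,
    fun i j hij hj x => far s κ m i j hij hj x⟩

end Pool.Agent.H40.LIN
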